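import Pool.Agent.Slc.Abr

set_option autoImplicit false

/-!
# Sublattice colourings: an absolute bound for the excluded distances which remain
-/

namespace Pool.Agent.Results.MP_5651d8_co.AbsoluteRange

/-- Euclidean space of dimension `n` -/
abbrev E (n : ℕ) : Type := EuclideanSpace ℝ (Fin n)

/-- `Λ` is a full-rank lattice: the integral combinations of a basis -/
def IsLat {n : ℕ} (Λ : AddSubgroup (E n)) : Prop :=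
  ∃ b : Module.Basis (Fin n) ℝ (E n), ∀ x : E n, x ∈ Λ ↔ ∀ i, ∃ k : ℤ, b.repr x i = k

/-- the Voronoi cell of `Λ` -/
def Vor {n : ℕ} (Λ : AddSubgroup (E n)) : Set (E n) := {x | ∀ z ∈ Λ, ‖x‖ ≤ ‖x - z‖}

/-- `R` is the covering radius of `Λ` -/
def IsCov {n : ℕ} (Λ : AddSubgroup (E n)) (R : ℝ) : Prop :=
  IsLeast {r : ℝ | ∀ x : E n, ∃ z ∈ Λ, ‖x - z‖ ≤ r} R

/-- no two coloured points at distance `l` share a colour; the points of `v + int V` (`v ∈ Λ`) have the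
colour `v + Λ'` -/
def Avoids {n : ℕ} (Λ Λ' : AddSubgroup (E n)) (l : ℝ) : Prop :=
  ∀ v ∈ Λ, ∀ w ∈ Λ, v - w ∈ Λ' → ∀ x y : E n, x - v ∈ interior (Vor Λ) →
    y - w ∈ interior (Vor Λ) → ‖x - y‖ ≠ l

open Classical in
/-- the number of colours of the sublattice colouring if it avoids the distance `l`, otherwise infinity
(also if there are infinitely many colours) -/
noncomputable def chi {n : ℕ} (Λ Λ' : AddSubgroup (E n)) (l : ℝ) : ℕ∞ :=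
  if Avoids Λ Λ' l ∧ Λ'.relIndex Λ ≠ 0 then ((Λ'.relIndex Λ : ℕ) : ℕ∞) else ⊤

/-- the number `m_n` of the problem: the least number of colours of a sublattice colouring of `ℝⁿ` which
avoids twice the covering radius of its lattice -/
noncomputable def mMin (n : ℕ) : ℕ∞ :=
  sInf {k : ℕ∞ | ∃ (Γ Γ' : AddSubgroup (E n)) (S : ℝ), IsLat Γ ∧ Γ' ≤ Γ ∧ IsCov Γ S ∧
    chi Γ Γ' (2 * S) = k}

/-- `l ≥ 48 R` and `n ≥ 4`, or `l ≥ 43 R` and `n ≥ 9` -/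
def Far (n : ℕ) (R l : ℝ) : Prop := 4 ≤ n ∧ 48 * R ≤ l ∨ 9 ≤ n ∧ 43 * R ≤ l

/-- Let `n ≥ 2`.
(1) The number `m_n` is a natural number `N`, `1 ≤ N ≤ 4ⁿ`, and `m_n ≤ χ_s(Λ, Λ', l)` for all lattices,
sublattices and `l > 2 R` with `l ≤ c R` or `C R ≤ l`, where `c = 2 / √(1 - (1/2 + 1/(8 N))²) > 4/√3` and
`C = 90`, for `n ≥ 9` also `C = 86`, for `4 ≤ n ≤ 8` also `C = 48`, and `C = 43` for every `n ≥ 9` such
that some lattice of `ℝⁿ` has a covering radius which is at most its minimal length.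
(2) If `n ≥ 5` and `116 R ≤ l`, or `n ≥ 9` and `86 R ≤ l`, then `χ_s(Λ, Λ', l) ≥ 4ⁿ`; if `n ≥ 4` and
`48 R ≤ l`, or `n ≥ 9` and `43 R ≤ l`, then `χ_s(Λ, Λ', l) ≥ 3ⁿ`.
(3) If `M ≥ 3` is a real number, `k ≥ M / 2` an integer and `(3/2) M³ R ≤ l`, then
`Mⁿ ≤ k χ_s(Λ, Λ', l)`.
(4) If `2 R < l < (6/√5) R`, then a sublattice of `Λ'` gives a colouring for the distance `2 R` with at
most three times (if `l < √6 R`, twice) as many colours; and if the colouring by `Λ'` avoids `l` but not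
`2 R`, then its number `K` of colours satisfies `l ≤ 8 K (√(l² - 4 R²) - l / 2)`.
(5) If `2 r` is at most the minimal length of `Λ` and `2 R < l`, `l < 6 r` or
`l < (2 r + 4 √(r² + 3 R²)) / 3`, then `l` may be replaced by `2 R` with the same `Λ` and `Λ'`.
(6) If the covering radius of `Λ` is at most its minimal length (twice its packing radius) and
`2 R < l < 3 R`, or `n ≥ 4` and `48 R ≤ l`, or `n ≥ 9` and `43 R ≤ l`, then some sublattice of `Λ` gives a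
colouring for the distance `2 R` with at most `χ_s(Λ, Λ', l)` colours. -/
theorem result (n : ℕ) (hn : 2 ≤ n) :
    (∃ N : ℕ, 1 ≤ N ∧ N ≤ 4 ^ n ∧ mMin n = N ∧
      4 / Real.sqrt 3 < 2 / Real.sqrt (1 - (1 / 2 + 1 / (8 * (N : ℝ))) ^ 2) ∧
      ∀ (Λ Λ' : AddSubgroup (E n)) (R l : ℝ), IsLat Λ → Λ' ≤ Λ → IsCov Λ R → 2 * R < l →
        (l ≤ 2 / Real.sqrt (1 - (1 / 2 + 1 / (8 * (N : ℝ))) ^ 2) * R ∨
          90 * R ≤ l ∨ 9 ≤ n ∧ 86 * R ≤ l ∨ Far n R l ∧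
            (n ≤ 8 ∨ ∃ (Γ : AddSubgroup (E n)) (S : ℝ), IsLat Γ ∧ IsCov Γ S ∧
              ∀ z ∈ Γ, z ≠ 0 → S ≤ ‖z‖)) →
        mMin n ≤ chi Λ Λ' l) ∧
    ∀ (Λ Λ' : AddSubgroup (E n)) (R l : ℝ), IsLat Λ → Λ' ≤ Λ → IsCov Λ R → 2 * R < l →
      (5 ≤ n ∧ 116 * R ≤ l ∨ 9 ≤ n ∧ 86 * R ≤ l → ((4 ^ n : ℕ) : ℕ∞) ≤ chi Λ Λ' l) ∧
      (Far n R l → ((3 ^ n : ℕ) : ℕ∞) ≤ chi Λ Λ' l) ∧
      (∀ (M : ℝ) (k K : ℕ), 3 ≤ M → M ≤ 2 * k → 3 / 2 * M ^ 3 * R ≤ l → chi Λ Λ' l = K →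
        M ^ n ≤ k * K) ∧
      (5 * l ^ 2 < 36 * R ^ 2 →
        (∃ M ≤ Λ', chi Λ M (2 * R) ≤ 3 * chi Λ Λ' l) ∧
        (l ^ 2 < 6 * R ^ 2 → ∃ M ≤ Λ', chi Λ M (2 * R) ≤ 2 * chi Λ Λ' l) ∧
        (chi Λ Λ' l ≠ ⊤ → chi Λ Λ' (2 * R) = ⊤ →
          l ≤ 8 * (Λ'.relIndex Λ : ℝ) * (Real.sqrt (l ^ 2 - 4 * R ^ 2) - l / 2))) ∧
      (∀ r : ℝ, 0 ≤ r → (∀ z ∈ Λ, z ≠ 0 → 2 * r ≤ ‖z‖) →
        (l < 6 * r ∨ l < (2 * r + 4 * Real.sqrt (r ^ 2 + 3 * R ^ 2)) / 3) →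
        chi Λ Λ' (2 * R) ≤ chi Λ Λ' l) ∧
      ((∀ z ∈ Λ, z ≠ 0 → R ≤ ‖z‖) → (l < 3 * R ∨ Far n R l) →
        ∃ M ≤ Λ, chi Λ M (2 * R) ≤ chi Λ Λ' l) :=
  Pool.Agent.Slc.main3 n hn

end Pool.Agent.Results.MP_5651d8_co.AbsoluteRange
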