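import Pool.Agent.Slc.Prd

set_option autoImplicit false

/-!
# Sublattice colourings: the vectors of the sublattice shorter than the excluded distance on one line
-/

namespace Pool.Agent.Results.MP_5651d8_co.OneLine

/-- Euclidean space of dimension `n` -/
abbrev E (n : ℕ) : Type := EuclideanSpace ℝ (Fin n)

/-- `Λ` is a full-rank lattice: the integral combinations of a basis -/
def IsLat {n : ℕ} (Λ : AddSubgroup (E n)) : Prop :=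
  ∃ b : Module.Basis (Fin n) ℝ (E n), ∀ x : E n, x ∈ Λ ↔ ∀ i, ∃ k : ℤ, b.repr x i = k

/-- the Voronoi cell of `Λ` -/
def Vor {n : ℕ} (Λ : AddSubgroup (E n)) : Set (E n) := {x | ∀ z ∈ Λ, ‖x‖ ≤ ‖x - z‖}

/-- `R` is the covering radius of `Λ` -/
def IsCov {n : ℕ} (Λ : AddSubgroup (E n)) (R : ℝ) : Prop :=
  IsLeast {r : ℝ | ∀ x : E n, ∃ z ∈ Λ, ‖x - z‖ ≤ r} R

/-- no two coloured points at distance `l` share a colour; the points of `v + int V` (`v ∈ Λ`) have the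
colour `v + Λ'` -/
def Avoids {n : ℕ} (Λ Λ' : AddSubgroup (E n)) (l : ℝ) : Prop :=
  ∀ v ∈ Λ, ∀ w ∈ Λ, v - w ∈ Λ' → ∀ x y : E n, x - v ∈ interior (Vor Λ) →
    y - w ∈ interior (Vor Λ) → ‖x - y‖ ≠ l

open Classical in
/-- the number of colours of the sublattice colouring if it avoids the distance `l`, otherwise infinity
(also if there are infinitely many colours) -/
noncomputable def chi {n : ℕ} (Λ Λ' : AddSubgroup (E n)) (l : ℝ) : ℕ∞ :=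
  if Avoids Λ Λ' l ∧ Λ'.relIndex Λ ≠ 0 then ((Λ'.relIndex Λ : ℕ) : ℕ∞) else ⊤

/-- the number `m_n` of the problem: the least number of colours of a sublattice colouring of `ℝⁿ` which
avoids twice the covering radius of its lattice -/
noncomputable def mMin (n : ℕ) : ℕ∞ :=
  sInf {k : ℕ∞ | ∃ (Γ Γ' : AddSubgroup (E n)) (S : ℝ), IsLat Γ ∧ Γ' ≤ Γ ∧ IsCov Γ S ∧
    chi Γ Γ' (2 * S) = k}

/-- Let `n ≥ 2`, `Λ` a lattice with covering radius `R`, `Λ' ≤ Λ` and `l > 2 R`. Suppose first that any two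
vectors of `Λ'` which are shorter than `l` are parallel.
(1) If there is no nonzero vector of `Λ'` shorter than `l`, or if the line of these vectors contains some
`p ∈ Λ` such that `p`, `2 p`, `3 p` are not in `Λ'` (for `l > (√52/3) R` only `p`, `2 p` not in `Λ'`), then
`m_n ≤ χ_s(Λ, Λ', l)`.
(2) If `l > 10 R`, or `4 ≤ n ≤ 8` and `l > 6 R`, or `n ≥ 5` and `l > 8 R`, then `m_n ≤ χ_s(Λ, Λ', l)`.
(3) For `l < √6 R` and `χ_s(Λ, Λ', l)` finite, any two vectors of `Λ'` shorter than `l` are parallel. -/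
theorem result (n : ℕ) (hn : 2 ≤ n) (Λ Λ' : AddSubgroup (E n)) (R l : ℝ) (hL : IsLat Λ)
    (hsub : Λ' ≤ Λ) (hR : IsCov Λ R) (hl : 2 * R < l) :
    ((∀ u ∈ Λ', ∀ v ∈ Λ', ‖u‖ < l → ‖v‖ < l → v ≠ 0 → ∃ c : ℝ, u = c • v) →
      ((∀ w ∈ Λ', w ≠ 0 → ‖w‖ < l → ∃ p ∈ Λ, (∃ c : ℝ, p = c • w) ∧ p ∉ Λ' ∧ (2 : ℝ) • p ∉ Λ' ∧
          ((3 : ℝ) • p ∉ Λ' ∨ 52 * R ^ 2 < 9 * l ^ 2)) →
        mMin n ≤ chi Λ Λ' l) ∧
      (10 * R < l ∨ 4 ≤ n ∧ n ≤ 8 ∧ 6 * R < l ∨ 5 ≤ n ∧ 8 * R < l → mMin n ≤ chi Λ Λ' l)) ∧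
    (chi Λ Λ' l ≠ ⊤ → l ^ 2 < 6 * R ^ 2 →
      ∀ u ∈ Λ', ∀ v ∈ Λ', ‖u‖ < l → ‖v‖ < l → v ≠ 0 → ∃ c : ℝ, u = c • v) :=
  Pool.Agent.Slc.line_main n hn Λ Λ' R l hL hsub hR hl

end Pool.Agent.Results.MP_5651d8_co.OneLine
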