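import Pool.Agent.Slc.Rea

set_option autoImplicit false

/-!
# Sublattice colourings: the span of the vectors of the sublattice shorter than the excluded distance
-/

namespace Pool.Agent.Results.MP_5651d8_co.ShortSpan

/-- Euclidean space of dimension `n` -/
abbrev E (n : ℕ) : Type := EuclideanSpace ℝ (Fin n)

/-- `Λ` is a full-rank lattice: the integral combinations of a basis -/
def IsLat {n : ℕ} (Λ : AddSubgroup (E n)) : Prop :=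
  ∃ b : Module.Basis (Fin n) ℝ (E n), ∀ x : E n, x ∈ Λ ↔ ∀ i, ∃ k : ℤ, b.repr x i = k

/-- the Voronoi cell of `Λ` -/
def Vor {n : ℕ} (Λ : AddSubgroup (E n)) : Set (E n) := {x | ∀ z ∈ Λ, ‖x‖ ≤ ‖x - z‖}

/-- `R` is the covering radius of `Λ` -/
def IsCov {n : ℕ} (Λ : AddSubgroup (E n)) (R : ℝ) : Prop :=
  IsLeast {r : ℝ | ∀ x : E n, ∃ z ∈ Λ, ‖x - z‖ ≤ r} R

/-- no two coloured points at distance `l` share a colour; the points of `v + int V` (`v ∈ Λ`) have the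
colour `v + Λ'` -/
def Avoids {n : ℕ} (Λ Λ' : AddSubgroup (E n)) (l : ℝ) : Prop :=
  ∀ v ∈ Λ, ∀ w ∈ Λ, v - w ∈ Λ' → ∀ x y : E n, x - v ∈ interior (Vor Λ) →
    y - w ∈ interior (Vor Λ) → ‖x - y‖ ≠ l

open Classical in
/-- the number of colours of the sublattice colouring if it avoids the distance `l`, otherwise infinity
(also if there are infinitely many colours) -/
noncomputable def chi {n : ℕ} (Λ Λ' : AddSubgroup (E n)) (l : ℝ) : ℕ∞ :=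
  if Avoids Λ Λ' l ∧ Λ'.relIndex Λ ≠ 0 then ((Λ'.relIndex Λ : ℕ) : ℕ∞) else ⊤

/-- the number `m_n` of the problem: the least number of colours of a sublattice colouring of `ℝⁿ` which
avoids twice the covering radius of its lattice -/
noncomputable def mMin (n : ℕ) : ℕ∞ :=
  sInf {k : ℕ∞ | ∃ (Γ Γ' : AddSubgroup (E n)) (S : ℝ), IsLat Γ ∧ Γ' ≤ Γ ∧ IsCov Γ S ∧
    chi Γ Γ' (2 * S) = k}

/-- the vectors of `Λ'` shorter than `l` -/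
def Sh {n : ℕ} (Λ' : AddSubgroup (E n)) (l : ℝ) : Set (E n) := {u | u ∈ Λ' ∧ ‖u‖ < l}

/-- the index of `Λ' ∩ W` in `Λ ∩ W` if it is finite, otherwise `0` -/
noncomputable def ind {n : ℕ} (Λ Λ' : AddSubgroup (E n)) (W : Submodule ℝ (E n)) : ℕ :=
  (Λ' ⊓ W.toAddSubgroup).relIndex (Λ ⊓ W.toAddSubgroup)

/-- `W` contains the vectors of `Λ'` in the interior of `2 M V` -/
def In {n : ℕ} (Λ Λ' : AddSubgroup (E n)) (W : Submodule ℝ (E n)) (M : ℝ) : Prop :=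
  ∀ u ∈ Λ', ∀ t : ℝ, 1 < 2 * M * t → t • u ∈ Vor Λ → u ∈ W

/-- Let `n ≥ 2`, `Λ` a lattice with covering radius `R` and Voronoi cell `V`, `Λ' ≤ Λ`, `l > 2 R`, and `W` a
linear subspace of dimension `d`.  Write `P(M)` for: `W` contains the vectors of `Λ'` in the interior of
`2 M V`.  Let `M > 0` be a real number and `k` an integer, `M ≤ 2 k`.
(1) If `P(M)`, then `M ^ n ≤ k ^ d χ_s(Λ, Λ', l)`.
(2) If `P(M)` and `4 ^ n k ^ d ≤ M ^ n`, or `n ≤ 8` and `3 ^ n k ^ d ≤ M ^ n`, then `m_n ≤ χ_s(Λ, Λ', l)`.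
(3) If `j d ≤ (j - 1) n` and `P(2 ^ (j + 1))` for some `j ≥ 1`, then `m_n ≤ χ_s(Λ, Λ', l)`.
Let now `W` contain all vectors of `Λ'` shorter than `l`.
(4) If `χ_s(Λ, Λ', l)` is finite and `2 (M - 1) R ≤ l`, then `P(M)`.
(5) If every point of `W` has distance at most `μ` from `Λ' ∩ W`, `m ≥ 2`, `q = (m - 1) ² > d`,
`4 q R ² < (l ² - μ ²) (q - d)` and `[Λ ∩ W : Λ' ∩ W] ≥ m ^ d`, then `m_n ≤ χ_s(Λ, Λ', l)`.
(6) If `W` is spanned by vectors of `Λ'` shorter than `l`, the same for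
`4 q R ² < ((1 - d / 4) l ² + d R ²) (q - d)`.
(7) For `l < √8 R` and `χ_s(Λ, Λ', l)` finite the vectors of `Λ'` shorter than `l` span at most a plane.
(8) If `l ≤ (4 k - 2) R` and the vectors of `Λ'` shorter than `l` span a space of dimension `e`, then
`(1 + l / (2 R)) ^ n ≤ k ^ e χ_s(Λ, Λ', l)`; the left side is at most `4 χ_s(Λ, Λ', l)` for `l < √8 R` and at
most `2 χ_s(Λ, Λ', l)` for `l < √6 R`. -/
theorem result (n : ℕ) (hn : 2 ≤ n) (Λ Λ' : AddSubgroup (E n)) (R l : ℝ) (hL : IsLat Λ)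
    (hsub : Λ' ≤ Λ) (hR : IsCov Λ R) (hl : 2 * R < l) (W : Submodule ℝ (E n)) (d : ℕ)
    (hd : Module.finrank ℝ W = d) :
    (∀ (M : ℝ) (k : ℕ), 0 < M → M ≤ 2 * k → In Λ Λ' W M →
      (∀ K : ℕ, chi Λ Λ' l = K → M ^ n ≤ (k : ℝ) ^ d * K) ∧
      (4 ^ n * (k : ℝ) ^ d ≤ M ^ n ∨ n ≤ 8 ∧ 3 ^ n * (k : ℝ) ^ d ≤ M ^ n →
        mMin n ≤ chi Λ Λ' l)) ∧
    (∀ j : ℕ, 1 ≤ j → j * d ≤ (j - 1) * n → In Λ Λ' W (2 ^ (j + 1)) → mMin n ≤ chi Λ Λ' l) ∧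
    ((∀ u ∈ Sh Λ' l, u ∈ W) →
      (chi Λ Λ' l ≠ ⊤ → ∀ M : ℝ, 0 < M → 2 * (M - 1) * R ≤ l → In Λ Λ' W M) ∧
      ∀ (m : ℕ) (q : ℝ), 2 ≤ m → q = ((m : ℝ) - 1) ^ 2 → d < q → m ^ d ≤ ind Λ Λ' W →
        (∃ μ : ℝ, (∀ w ∈ W, ∃ γ ∈ Λ', γ ∈ W ∧ ‖w - γ‖ ≤ μ) ∧
          4 * q * R ^ 2 < (l ^ 2 - μ ^ 2) * (q - d)) ∨
        W = Submodule.span ℝ (Sh Λ' l) ∧
          4 * q * R ^ 2 < ((1 - (d : ℝ) / 4) * l ^ 2 + d * R ^ 2) * (q - d) →
        mMin n ≤ chi Λ Λ' l) ∧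
    (chi Λ Λ' l ≠ ⊤ → l ^ 2 < 8 * R ^ 2 →
      Module.finrank ℝ (Submodule.span ℝ (Sh Λ' l)) ≤ 2) ∧
    ∀ K : ℕ, chi Λ Λ' l = K →
      (∀ k : ℕ, l ≤ (4 * (k : ℝ) - 2) * R →
        (1 + l / (2 * R)) ^ n ≤ (k : ℝ) ^ Module.finrank ℝ (Submodule.span ℝ (Sh Λ' l)) * K) ∧
      (l ^ 2 < 8 * R ^ 2 → (1 + l / (2 * R)) ^ n ≤ 4 * K) ∧
      (l ^ 2 < 6 * R ^ 2 → (1 + l / (2 * R)) ^ n ≤ 2 * K) := by
  have hRpos := Pool.Agent.Slc.r_pos (by omega) hL hR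
  have hlpos : 0 < l := by linarith
  refine ⟨fun M k hM hMk h => ⟨fun K hK => ?_, fun hc => ?_⟩, fun j hj hjd h => ?_,
    fun hW => ⟨fun htop M hM hMl u hu t ht hy => ?_, ?_⟩,
    fun htop h8 => Pool.Agent.Slc.span_plane hL hsub hR hl htop h8,
    fun K hK => ⟨fun k hk => Pool.Agent.Slc.rea_span hn hL hsub hR hl K hK k hk,
      fun h8 => Pool.Agent.Slc.rea_plane hn hL hsub hR hl h8 K hK,
      fun h6 => Pool.Agent.Slc.rea_line hn hL hsub hR hl h6 K hK⟩⟩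
  · rw [← hd]
    exact Pool.Agent.Slc.rea_pow hn hL hsub hR hl W k hM hMk h K hK
  · rw [← hd] at hc
    exact Pool.Agent.Slc.rea_le hn hL hsub hR hl W k hM hMk h hc
  · rw [← hd] at hjd
    exact Pool.Agent.Slc.rea_two hn hL hsub hR hl W j hj hjd h
  · exact hW u ⟨hu, Pool.Agent.Slc.short_real hL hsub hR hlpos (Pool.Agent.Slc.of_chi htop).1 hM hMl
      hu ht hy⟩
  · subst hd
    rintro m q hm hq hdq hi (⟨μ, hμ, h⟩ | ⟨hWs, h⟩)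
    · rw [hq] at hdq h
      exact Pool.Agent.Slc.span_mu (by omega) hL hsub hR hl W (fun u hu hul => hW u ⟨hu, hul⟩) μ hμ
        m hm hdq h hi
    · rw [hq] at hdq h
      exact Pool.Agent.Slc.span_case (by omega) hL hsub hR hl W hWs m hm hdq h hi

end Pool.Agent.Results.MP_5651d8_co.ShortSpan
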