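import Mathlib

set_option autoImplicit false

/-!
# Sublattice colourings: the excluded distances slightly larger than `2R`
-/

namespace Pool.Agent.Results.MP_5651d8_co.Threshold

/-- Euclidean space of dimension `n` -/
abbrev E (n : ℕ) : Type := EuclideanSpace ℝ (Fin n)

/-- `Λ` is a full-rank lattice: the integral combinations of a basis -/
def IsLat {n : ℕ} (Λ : AddSubgroup (E n)) : Prop :=
  ∃ b : Module.Basis (Fin n) ℝ (E n), ∀ x : E n, x ∈ Λ ↔ ∀ i, ∃ k : ℤ, b.repr x i = k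

/-- the Voronoi cell of `Λ` -/
def Vor {n : ℕ} (Λ : AddSubgroup (E n)) : Set (E n) := {x | ∀ z ∈ Λ, ‖x‖ ≤ ‖x - z‖}

/-- `R` is the covering radius of `Λ` -/
def IsCov {n : ℕ} (Λ : AddSubgroup (E n)) (R : ℝ) : Prop :=
  IsLeast {r : ℝ | ∀ x : E n, ∃ z ∈ Λ, ‖x - z‖ ≤ r} R

/-- no two coloured points at distance `l` share a colour; the points of `v + int V` (`v ∈ Λ`) have the
colour `v + Λ'` -/
def Avoids {n : ℕ} (Λ Λ' : AddSubgroup (E n)) (l : ℝ) : Prop :=
  ∀ v ∈ Λ, ∀ w ∈ Λ, v - w ∈ Λ' → ∀ x y : E n, x - v ∈ interior (Vor Λ) →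
    y - w ∈ interior (Vor Λ) → ‖x - y‖ ≠ l

open Classical in
/-- the number of colours of the sublattice colouring if it avoids the distance `l`, otherwise infinity
(also if there are infinitely many colours) -/
noncomputable def chi {n : ℕ} (Λ Λ' : AddSubgroup (E n)) (l : ℝ) : ℕ∞ :=
  if Avoids Λ Λ' l ∧ Λ'.relIndex Λ ≠ 0 then ((Λ'.relIndex Λ : ℕ) : ℕ∞) else ⊤

section general

variable {n : ℕ} {Λ Λ' : AddSubgroup (E n)}

theorem mem_vor {x : E n} : x ∈ Vor Λ ↔ ∀ z ∈ Λ, 2 * inner ℝ x z ≤ ‖z‖ ^ 2 := by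
  unfold Vor
  rw [Set.mem_ofPred_eq]
  refine forall₂_congr fun z _ => ?_
  rw [← sq_le_sq₀ (norm_nonneg _) (norm_nonneg _), norm_sub_sq_real]
  constructor
  · intro h; linarith
  · intro h; linarith

theorem vor_neg {x : E n} (h : x ∈ Vor Λ) : -x ∈ Vor Λ := by
  rw [mem_vor] at h ⊢
  intro z hz
  have := h (-z) (Λ.neg_mem hz)
  rw [inner_neg_right, norm_neg] at this
  rw [inner_neg_left]
  exact this

theorem vor_convex : Convex ℝ (Vor Λ) := by
  intro x hx y hy a b ha hb hab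
  rw [mem_vor] at hx hy ⊢
  intro z hz
  have h1 := mul_le_mul_of_nonneg_left (hx z hz) ha
  have h2 := mul_le_mul_of_nonneg_left (hy z hz) hb
  rw [inner_add_left, inner_smul_left, inner_smul_left]
  simp only [conj_trivial]
  have h3 : ‖z‖ ^ 2 = a * ‖z‖ ^ 2 + b * ‖z‖ ^ 2 := by rw [← add_mul, hab, one_mul]
  rw [h3]
  linarith

theorem int_neg {x : E n} (h : x ∈ interior (Vor Λ)) : -x ∈ interior (Vor Λ) := by
  rw [mem_interior_iff_mem_nhds, Metric.mem_nhds_iff] at h ⊢
  obtain ⟨ε, hε, h⟩ := h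
  refine ⟨ε, hε, fun y hy => ?_⟩
  have h1 : -y ∈ Vor Λ := h (by
    rw [Metric.mem_ball, dist_eq_norm] at hy ⊢
    have : -y - x = -(y - -x) := by abel
    rw [this, norm_neg]
    exact hy)
  have := vor_neg h1
  rwa [neg_neg] at this

theorem lat_closed (h : IsLat Λ) : IsClosed (Λ : Set (E n)) := by
  obtain ⟨b, hb⟩ := h
  have h1 : (Λ : Set (E n)) = ⋂ i, (fun x => b.repr x i) ⁻¹' (Set.range ((↑) : ℤ → ℝ)) := by
    ext x
    rw [SetLike.mem_coe, hb, Set.mem_iInter]
    refine forall_congr' fun i => ?_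
    rw [Set.mem_preimage, Set.mem_range]
    exact ⟨fun ⟨k, hk⟩ => ⟨k, hk.symm⟩, fun ⟨k, hk⟩ => ⟨k, hk.symm⟩⟩
  rw [h1]
  refine isClosed_iInter fun i => ?_
  refine IsClosed.preimage ?_ Int.isClosedEmbedding_coe_real.isClosed_range
  exact (b.coord i).continuous_of_finiteDimensional

theorem zero_int (h : IsLat Λ) : (0 : E n) ∈ interior (Vor Λ) := by
  obtain ⟨b, hb⟩ := h
  have h1 : ∃ ε > 0, ∀ z ∈ Λ, ‖z‖ < ε → z = 0 := by
    have hopen : IsOpen {x : E n | ∀ i, |b.repr x i| < 1} := by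
      have : {x : E n | ∀ i, |b.repr x i| < 1} = ⋂ i, {x : E n | |b.repr x i| < 1} := by
        ext x
        simp
      rw [this]
      refine isOpen_iInter_of_finite fun i => ?_
      exact isOpen_lt ((b.coord i).continuous_of_finiteDimensional.abs) continuous_const
    have h0 : (0 : E n) ∈ {x : E n | ∀ i, |b.repr x i| < 1} := by
      intro i
      simp
    obtain ⟨ε, hε, hball⟩ := Metric.isOpen_iff.1 hopen 0 h0
    refine ⟨ε, hε, fun z hz hzε => ?_⟩
    have h2 := hball (show z ∈ Metric.ball 0 ε by rwa [mem_ball_zero_iff])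
    have h3 : b.repr z = 0 := by
      ext i
      obtain ⟨k, hk⟩ := (hb z).1 hz i
      have h4 := h2 i
      rw [hk] at h4
      have h5 : |k| < 1 := by exact_mod_cast h4
      rw [Int.abs_lt_one_iff] at h5
      rw [hk, h5]
      simp
    exact (LinearEquiv.map_eq_zero_iff b.repr).1 h3
  obtain ⟨ε, hε, h1⟩ := h1
  rw [mem_interior_iff_mem_nhds, Metric.mem_nhds_iff]
  refine ⟨ε / 2, by positivity, fun x hx z hz => ?_⟩
  rw [mem_ball_zero_iff] at hx
  by_cases hz0 : z = 0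
  · rw [hz0, sub_zero]
  · have h2 : ε ≤ ‖z‖ := by
      by_contra hcon
      exact hz0 (h1 z hz (not_le.1 hcon))
    have h3 : ‖z‖ ≤ ‖x - z‖ + ‖x‖ := by
      have : z = x - (x - z) := by abel
      calc ‖z‖ = ‖x - (x - z)‖ := by rw [← this]
        _ ≤ ‖x‖ + ‖x - z‖ := norm_sub_le _ _
        _ = ‖x - z‖ + ‖x‖ := add_comm _ _
    linarith

theorem vor_le {R : ℝ} (hR : IsCov Λ R) {x : E n} (hx : x ∈ Vor Λ) : ‖x‖ ≤ R := by
  obtain ⟨z, hz, h⟩ := hR.1 x
  exact (hx z hz).trans h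

theorem int_lt {R : ℝ} (hR : IsCov Λ R) (hR0 : 0 < R) {x : E n} (hx : x ∈ interior (Vor Λ)) : ‖x‖ < R := by
  rcases (vor_le hR (interior_subset hx)).lt_or_eq with h | h
  · exact h
  · exfalso
    rw [mem_interior_iff_mem_nhds, Metric.mem_nhds_iff] at hx
    obtain ⟨ε, hε, hx⟩ := hx
    have h1 : x + (ε / 2 / R) • x ∈ Vor Λ := hx (by
      rw [Metric.mem_ball, dist_eq_norm, add_sub_cancel_left, norm_smul, h, Real.norm_eq_abs,
        abs_of_pos (by positivity), div_mul_cancel₀ _ hR0.ne']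
      linarith)
    have h2 := vor_le hR h1
    have h3 : x + (ε / 2 / R) • x = (1 + ε / 2 / R) • x := by rw [add_smul, one_smul]
    have h4 : 0 < ε / 2 / R := by positivity
    rw [h3, norm_smul, h, Real.norm_eq_abs, abs_of_pos (by linarith)] at h2
    nlinarith

theorem exists_far {R : ℝ} (hL : IsLat Λ) (hR : IsCov Λ R) {r : ℝ} (h0 : 0 ≤ r) (hr : r < R) :
    ∃ q ∈ interior (Vor Λ), r ≤ ‖q‖ := by
  have hr' : (r + R) / 2 < R := by linarith
  have h1 : ¬ ∀ x : E n, ∃ z ∈ Λ, ‖x - z‖ ≤ (r + R) / 2 := fun h => by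
    have := hR.2 h
    linarith
  push Not at h1
  obtain ⟨x₀, hx₀⟩ := h1
  obtain ⟨z₀, hz₀, hd⟩ := (lat_closed hL).exists_infDist_eq_dist ⟨0, Λ.zero_mem⟩ x₀
  have hV : x₀ - z₀ ∈ Vor Λ := by
    intro z hz
    have h2 : Metric.infDist x₀ (Λ : Set (E n)) ≤ dist x₀ (z₀ + z) :=
      Metric.infDist_le_dist_of_mem (Λ.add_mem hz₀ hz)
    rw [hd, dist_eq_norm, dist_eq_norm] at h2
    rwa [sub_sub]
  have hbig := hx₀ z₀ hz₀
  have hpos : 0 < (r + R) / 2 := by linarith
  set t : ℝ := r / ((r + R) / 2) with ht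
  have ht0 : 0 ≤ t := by positivity
  have ht1 : t < 1 := by
    rw [ht, div_lt_one hpos]
    linarith
  refine ⟨t • (x₀ - z₀), ?_, ?_⟩
  · have := vor_convex.combo_interior_self_mem_interior (zero_int hL) hV (a := 1 - t) (b := t)
      (by linarith) ht0 (by ring)
    rwa [smul_zero, zero_add] at this
  · rw [norm_smul, Real.norm_eq_abs, abs_of_nonneg ht0]
    have h3 : t * ((r + R) / 2) ≤ t * ‖x₀ - z₀‖ := mul_le_mul_of_nonneg_left hbig.le ht0
    rwa [ht, div_mul_cancel₀ _ hpos.ne'] at h3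

theorem ne_dist (hsub : Λ' ≤ Λ) {l : ℝ} (hA : Avoids Λ Λ' l) {u : E n} (hu : u ∈ Λ')
    {x : E n} (hx : x ∈ interior (Vor Λ)) : ‖u + (2 : ℝ) • x‖ ≠ l := by
  have := hA u (hsub hu) 0 Λ.zero_mem (by rwa [sub_zero]) (u + x) (-x)
    (by rwa [add_sub_cancel_left]) (by rw [sub_zero]; exact int_neg hx)
  have h2 : u + x - -x = u + (2 : ℝ) • x := by rw [two_smul]; abel
  rwa [h2] at this

/-- the distances between the cells of `0` and `u` lie on one side of `l` -/
theorem side (hsub : Λ' ≤ Λ) {l : ℝ} (hA : Avoids Λ Λ' l) {u : E n} (hu : u ∈ Λ')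
    {p q : E n} (hp : p ∈ interior (Vor Λ)) (hq : q ∈ interior (Vor Λ)) (h : ‖u + (2 : ℝ) • p‖ < l) :
    ‖u + (2 : ℝ) • q‖ < l := by
  by_contra hcon
  have hc : ContinuousOn (fun x : E n => ‖u + (2 : ℝ) • x‖) (interior (Vor Λ)) := by
    fun_prop
  have h3 := (vor_convex (Λ := Λ)).interior.isPreconnected.intermediate_value hp hq hc
    ⟨h.le, not_lt.1 hcon⟩
  obtain ⟨x, hx, hxl⟩ := h3
  exact ne_dist hsub hA hu hx hxl

theorem avoids_two (hL : IsLat Λ) (hsub : Λ' ≤ Λ) {R l : ℝ} (hR : IsCov Λ R) (h2R : 2 * R < l)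
    (hl : l ≤ 4 / Real.sqrt 3 * R) (hA : Avoids Λ Λ' l) : Avoids Λ Λ' (2 * R) := by
  have hR0 : 0 ≤ R := by
    obtain ⟨z, -, hz⟩ := hR.1 0
    exact (norm_nonneg _).trans hz
  have hs3 : (0 : ℝ) < Real.sqrt 3 := Real.sqrt_pos.2 (by norm_num)
  have hs3' : Real.sqrt 3 ^ 2 = 3 := Real.sq_sqrt (by norm_num)
  have hRpos : 0 < R := by
    rcases hR0.lt_or_eq with h | h
    · exact h
    · rw [← h] at h2R hl
      linarith
  have hlpos : 0 < l := by linarith
  have hl2 : 3 * l ^ 2 ≤ 16 * R ^ 2 := by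
    have h1 : l * Real.sqrt 3 ≤ 4 * R := by
      have := mul_le_mul_of_nonneg_right hl hs3.le
      have h2 : 4 / Real.sqrt 3 * R * Real.sqrt 3 = 4 * R := by field_simp
      linarith
    have h2 : (l * Real.sqrt 3) ^ 2 ≤ (4 * R) ^ 2 := pow_le_pow_left₀ (by positivity) h1 2
    rw [mul_pow, hs3', mul_pow] at h2
    linarith
  intro v hv w hw hvw x y hx hy hxy
  set u : E n := v - w with hu
  set q : E n := (1 / 2 : ℝ) • (x - v) + (1 / 2 : ℝ) • (-(y - w)) with hq
  have hqi : q ∈ interior (Vor Λ) :=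
    (vor_convex (Λ := Λ)).interior hx (int_neg hy) (by norm_num) (by norm_num) (by norm_num)
  have huq : u + (2 : ℝ) • q = x - y := by
    rw [hq, smul_add, smul_smul, smul_smul]
    norm_num
    rw [hu]
    abel
  have h0 := zero_int hL
  -- `u ≠ 0`
  have hu0 : u ≠ 0 := by
    intro h
    rw [h, zero_add] at huq
    have h1 := int_lt hR hRpos hqi
    rw [← huq, norm_smul] at hxy
    norm_num at hxy
    linarith
  have hupos : 0 < ‖u‖ := norm_pos_iff.2 hu0
  have hmul : ∀ k : ℕ, (k : ℝ) • u ∈ Λ' := fun k => by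
    rw [Nat.cast_smul_eq_nsmul]
    exact Λ'.nsmul_mem hvw k
  -- the last multiple of `u` inside
  have hP1 : ∀ p ∈ interior (Vor Λ), ‖((1 : ℕ) : ℝ) • u + (2 : ℝ) • p‖ < l := by
    intro p hp
    refine side hsub hA (hmul 1) hqi hp ?_
    rw [Nat.cast_one, one_smul, huq, hxy]
    exact h2R
  have hex : ∃ k : ℕ, 1 ≤ k ∧ ¬ ∀ p ∈ interior (Vor Λ), ‖((k : ℕ) : ℝ) • u + (2 : ℝ) • p‖ < l := by
    obtain ⟨k, hk⟩ := exists_nat_gt (l / ‖u‖)
    refine ⟨k + 1, by omega, fun h => ?_⟩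
    have h1 := h 0 h0
    rw [smul_zero, add_zero, norm_smul, Real.norm_eq_abs, abs_of_nonneg (Nat.cast_nonneg _)] at h1
    rw [div_lt_iff₀ hupos] at hk
    push_cast at h1
    nlinarith
  classical
  obtain ⟨hk1, hk2⟩ := Nat.find_spec hex
  set K := Nat.find hex with hK
  have hK2 : 2 ≤ K := by
    by_contra hcon
    have : K = 1 := by omega
    rw [this] at hk2
    exact hk2 hP1
  obtain ⟨k, hkK⟩ : ∃ k, K = k + 1 := ⟨K - 1, by omega⟩
  have hk : 1 ≤ k := by omega
  have hin : ∀ p ∈ interior (Vor Λ), ‖(k : ℝ) • u + (2 : ℝ) • p‖ < l := by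
    by_contra hcon
    have := Nat.find_min hex (m := k) (by omega)
    exact this ⟨hk, hcon⟩
  -- the next multiple is outside
  have hout : l < ((k : ℝ) + 1) * ‖u‖ := by
    rw [hkK] at hk2
    by_contra hcon
    have hne := ne_dist hsub hA (hmul (k + 1)) h0
    rw [smul_zero, add_zero, norm_smul, Real.norm_eq_abs, abs_of_nonneg (Nat.cast_nonneg _)] at hne
    push_cast at hne
    have hlt : ((k : ℝ) + 1) * ‖u‖ < l := lt_of_le_of_ne (not_lt.1 hcon) hne
    refine hk2 fun p hp => side hsub hA (hmul (k + 1)) h0 hp ?_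
    rw [smul_zero, add_zero, norm_smul, Real.norm_eq_abs, abs_of_nonneg (Nat.cast_nonneg _)]
    push_cast
    exact hlt
  have hfar : ∀ r : ℝ, 0 ≤ r → r < R → (k : ℝ) ^ 2 * ‖u‖ ^ 2 + 4 * r ^ 2 < l ^ 2 := by
    intro r hr0 hrR
    obtain ⟨p, hp, hpr⟩ := exists_far hL hR hr0 hrR
    have key : ∀ p ∈ interior (Vor Λ), r ≤ ‖p‖ → 0 ≤ inner ℝ u p →
        (k : ℝ) ^ 2 * ‖u‖ ^ 2 + 4 * r ^ 2 < l ^ 2 := by
      intro p hp hpr hup
      have h1 := pow_lt_pow_left₀ (hin p hp) (norm_nonneg _) (two_ne_zero)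
      rw [norm_add_sq_real, norm_smul, norm_smul, inner_smul_left, inner_smul_right, Real.norm_eq_abs,
        Real.norm_eq_abs, abs_of_nonneg (Nat.cast_nonneg k), abs_of_pos (show (0 : ℝ) < 2 by norm_num),
        mul_pow, mul_pow] at h1
      simp only [conj_trivial] at h1
      have h2 : r ^ 2 ≤ ‖p‖ ^ 2 := pow_le_pow_left₀ hr0 hpr 2
      have h3 : 0 ≤ (k : ℝ) * (2 * inner ℝ u p) := by positivity
      linarith
    rcases le_total 0 (inner ℝ u p) with h | h
    · exact key p hp hpr h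
    · refine key (-p) (int_neg hp) (by rwa [norm_neg]) ?_
      rw [inner_neg_right]
      linarith
  have hA4 : 4 * R ^ 2 ≤ l ^ 2 - (k : ℝ) ^ 2 * ‖u‖ ^ 2 := by
    by_contra hcon
    push Not at hcon
    have h1 := hfar 0 le_rfl hRpos
    have h2 : 0 < l ^ 2 - (k : ℝ) ^ 2 * ‖u‖ ^ 2 := by linarith
    have h3 : Real.sqrt ((l ^ 2 - (k : ℝ) ^ 2 * ‖u‖ ^ 2) / 4) ^ 2 =
        (l ^ 2 - (k : ℝ) ^ 2 * ‖u‖ ^ 2) / 4 := Real.sq_sqrt (by positivity)
    have h4 : Real.sqrt ((l ^ 2 - (k : ℝ) ^ 2 * ‖u‖ ^ 2) / 4) < R := by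
      rw [Real.sqrt_lt' hRpos]
      linarith
    have h5 := hfar _ (Real.sqrt_nonneg _) h4
    rw [h3] at h5
    linarith
  have hfin : (2 * ((k : ℝ) * ‖u‖)) ^ 2 ≤ l ^ 2 := by nlinarith
  have h6 : 2 * ((k : ℝ) * ‖u‖) ≤ l := le_of_sq_le_sq hfin hlpos.le
  have h7 : (1 : ℝ) ≤ k := by exact_mod_cast hk
  nlinarith

theorem chi_le (hL : IsLat Λ) (hsub : Λ' ≤ Λ) {R l : ℝ} (hR : IsCov Λ R) (h2R : 2 * R < l)
    (hl : l ≤ 4 / Real.sqrt 3 * R) : chi Λ Λ' (2 * R) ≤ chi Λ Λ' l := by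
  classical
  unfold chi
  by_cases h : Avoids Λ Λ' l ∧ Λ'.relIndex Λ ≠ 0
  · rw [if_pos h, if_pos ⟨avoids_two hL hsub hR h2R hl h.1, h.2⟩]
  · rw [if_neg h]
    exact le_top

end general

section grid

variable {n : ℕ}

theorem inner_sum (x z : E n) : inner ℝ x z = ∑ i, x i * z i := by
  rw [PiLp.inner_apply]
  refine Finset.sum_congr rfl fun i _ => ?_
  simp [mul_comm]

theorem norm_sum (x : E n) : ‖x‖ ^ 2 = ∑ i, x i ^ 2 := by
  rw [EuclideanSpace.norm_sq_eq]
  refine Finset.sum_congr rfl fun i _ => ?_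
  rw [Real.norm_eq_abs, sq_abs]

/-- the orthogonal lattice with the periods `c i` -/
def grid (c : Fin n → ℝ) : AddSubgroup (E n) where
  carrier := {x | ∀ i, ∃ k : ℤ, x i = c i * k}
  zero_mem' := fun i => ⟨0, by simp⟩
  add_mem' := by
    intro x y hx hy i
    obtain ⟨k, hk⟩ := hx i
    obtain ⟨m, hm⟩ := hy i
    refine ⟨k + m, ?_⟩
    rw [PiLp.add_apply, hk, hm]
    push_cast
    ring
  neg_mem' := by
    intro x hx i
    obtain ⟨k, hk⟩ := hx i
    refine ⟨-k, ?_⟩
    rw [PiLp.neg_apply, hk]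
    push_cast
    ring

theorem mem_grid {c : Fin n → ℝ} {x : E n} : x ∈ grid c ↔ ∀ i, ∃ k : ℤ, x i = c i * k := Iff.rfl

theorem grid_isLat {c : Fin n → ℝ} (hc : ∀ i, 0 < c i) : IsLat (grid c) := by
  refine ⟨(EuclideanSpace.basisFun (Fin n) ℝ).toBasis.unitsSMul fun i => Units.mk0 (c i) (hc i).ne', ?_⟩
  intro x
  rw [mem_grid]
  refine forall_congr' fun i => exists_congr fun k => ?_
  rw [Module.Basis.repr_unitsSMul]
  have h1 : (EuclideanSpace.basisFun (Fin n) ℝ).toBasis.repr x i = x i := by simp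
  rw [h1]
  have h2 := (hc i).ne'
  rw [Units.smul_def, Units.val_inv_eq_inv_val, Units.val_mk0, smul_eq_mul]
  constructor
  · intro h
    rw [h]
    field_simp
  · intro h
    rw [← h]
    field_simp

theorem vor_grid {c : Fin n → ℝ} (hc : ∀ i, 0 < c i) {x : E n} :
    x ∈ Vor (grid c) ↔ ∀ i, 2 * |x i| ≤ c i := by
  rw [mem_vor]
  constructor
  · intro h i
    have key : ∀ e : ℝ, (e = 1 ∨ e = -1) → 2 * (e * x i) ≤ c i := by
      intro e he
      have he2 : e ^ 2 = 1 := by rcases he with rfl | rfl <;> norm_num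
      have h1 := h (EuclideanSpace.single i (e * c i)) (by
        intro j
        by_cases hj : j = i
        · subst hj
          rcases he with rfl | rfl
          · exact ⟨1, by simp⟩
          · exact ⟨-1, by simp⟩
        · exact ⟨0, by simp [hj]⟩)
      rw [inner_sum, norm_sum] at h1
      have h2 : ∑ j, x j * (EuclideanSpace.single i (e * c i) : E n) j = x i * (e * c i) := by
        rw [Finset.sum_eq_single i]
        · simp
        · intro j _ hj
          simp [hj]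
        · intro hi
          exact absurd (Finset.mem_univ i) hi
      have h3 : ∑ j, (EuclideanSpace.single i (e * c i) : E n) j ^ 2 = (e * c i) ^ 2 := by
        rw [Finset.sum_eq_single i]
        · simp
        · intro j _ hj
          simp [hj]
        · intro hi
          exact absurd (Finset.mem_univ i) hi
      rw [h2, h3, mul_pow, he2, one_mul] at h1
      have h4 : c i * (2 * (e * x i)) ≤ c i * c i := by nlinarith
      exact le_of_mul_le_mul_left h4 (hc i)
    have h1 := key 1 (Or.inl rfl)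
    have h2 := key (-1) (Or.inr rfl)
    rcases abs_cases (x i) with ⟨h3, -⟩ | ⟨h3, -⟩
    · rw [h3]; linarith
    · rw [h3]; linarith
  · intro h z hz
    rw [inner_sum, norm_sum, Finset.mul_sum]
    refine Finset.sum_le_sum fun i _ => ?_
    obtain ⟨k, hk⟩ := hz i
    have h1 := h i
    have h2 : 2 * (x i * z i) ≤ 2 * |x i| * |z i| := by
      have := le_abs_self (x i * z i)
      rw [abs_mul] at this
      linarith
    have h3 : 2 * |x i| * |z i| ≤ c i * |z i| := mul_le_mul_of_nonneg_right h1 (abs_nonneg _)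
    have h4 : c i * |z i| ≤ z i ^ 2 := by
      rw [hk, abs_mul, abs_of_pos (hc i), mul_pow]
      have h5 : |(k : ℝ)| ≤ (k : ℝ) ^ 2 := by
        have : |k| ≤ k ^ 2 := by
          rw [← sq_abs]
          rcases eq_or_ne k 0 with h | h
          · simp [h]
          · have := Int.one_le_abs h
            nlinarith
        exact_mod_cast this
      nlinarith [mul_pos (hc i) (hc i)]
    linarith

theorem int_grid {c : Fin n → ℝ} (hc : ∀ i, 0 < c i) {x : E n} :
    x ∈ interior (Vor (grid c)) ↔ ∀ i, 2 * |x i| < c i := by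
  constructor
  · intro h i
    have h0 := (vor_grid hc).1 (interior_subset h) i
    rcases h0.lt_or_eq with h1 | h1
    · exact h1
    · exfalso
      rw [mem_interior_iff_mem_nhds, Metric.mem_nhds_iff] at h
      obtain ⟨ε, hε, h⟩ := h
      have hpos : 0 < |x i| := by
        have := hc i
        linarith
      have h2 : x + (ε / 2 / |x i|) • EuclideanSpace.single i (x i) ∈ Vor (grid c) := h (by
        rw [Metric.mem_ball, dist_eq_norm, add_sub_cancel_left, norm_smul, PiLp.norm_single,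
          Real.norm_eq_abs, Real.norm_eq_abs, abs_of_pos (by positivity), div_mul_cancel₀ _ hpos.ne']
        linarith)
      have h3 := (vor_grid hc).1 h2 i
      have h4 : (x + (ε / 2 / |x i|) • EuclideanSpace.single i (x i) : E n) i =
          (1 + ε / 2 / |x i|) * x i := by
        simp
        ring
      rw [h4, abs_mul, abs_of_pos (by positivity)] at h3
      have h5 : 0 < ε / 2 / |x i| * |x i| := by positivity
      nlinarith
  · intro h
    have hopen : IsOpen {x : E n | ∀ i, 2 * |x i| < c i} := by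
      have : {x : E n | ∀ i, 2 * |x i| < c i} = ⋂ i, {x : E n | 2 * |x i| < c i} := by
        ext x
        simp
      rw [this]
      refine isOpen_iInter_of_finite fun i => ?_
      exact isOpen_lt (by fun_prop) continuous_const
    refine interior_maximal (fun y hy => (vor_grid hc).2 fun i => (hy i).le) hopen h

theorem cov_grid {c : Fin n → ℝ} (hc : ∀ i, 0 < c i) :
    IsCov (grid c) (Real.sqrt (∑ i, (c i / 2) ^ 2)) := by
  constructor
  · intro x
    refine ⟨WithLp.toLp 2 fun i => c i * (round (x i / c i) : ℤ), fun i => ⟨round (x i / c i), rfl⟩, ?_⟩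
    rw [← Real.sqrt_sq (norm_nonneg _)]
    refine Real.sqrt_le_sqrt ?_
    rw [norm_sum]
    refine Finset.sum_le_sum fun i _ => ?_
    rw [PiLp.sub_apply]
    have h1 := abs_sub_round (x i / c i)
    have h2 : x i - c i * ((round (x i / c i) : ℤ) : ℝ) = c i * (x i / c i - (round (x i / c i) : ℤ)) := by
      have := (hc i).ne'
      field_simp
    change (x i - c i * ((round (x i / c i) : ℤ) : ℝ)) ^ 2 ≤ _
    rw [h2, mul_pow, div_pow, div_eq_mul_inv]
    refine mul_le_mul_of_nonneg_left ?_ (sq_nonneg _)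
    rw [← sq_abs]
    have h3 := pow_le_pow_left₀ (abs_nonneg _) h1 2
    norm_num at h3 ⊢
    exact h3
  · intro r hr
    obtain ⟨z, hz, h⟩ := hr (WithLp.toLp 2 fun i => c i / 2)
    refine le_trans ?_ h
    rw [← Real.sqrt_sq (norm_nonneg (WithLp.toLp 2 (fun i => c i / 2) - z))]
    refine Real.sqrt_le_sqrt ?_
    rw [norm_sum]
    refine Finset.sum_le_sum fun i _ => ?_
    rw [PiLp.sub_apply]
    obtain ⟨k, hk⟩ := hz i
    change _ ≤ (c i / 2 - z i) ^ 2
    rw [hk]
    have h1 : (c i / 2 - c i * k) ^ 2 - (c i / 2) ^ 2 = c i ^ 2 * ((k : ℝ) ^ 2 - k) := by ring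
    have h2 : (0 : ℝ) ≤ (k : ℝ) ^ 2 - k := by
      have : 0 ≤ k ^ 2 - k := by
        have := Int.le_self_sq k
        linarith
      exact_mod_cast this
    nlinarith [mul_nonneg (sq_nonneg (c i)) h2]

theorem grid_index {c : Fin n → ℝ} (m : Fin n → ℕ) (hm : ∀ i, 0 < m i) :
    (grid fun i => c i * m i).relIndex (grid c) ≠ 0 := by
  classical
  have hfin : Finite ((grid c) ⧸ ((grid fun i => c i * m i).addSubgroupOf (grid c))) := by
    let F : (∀ i, Fin (m i)) → (grid c) ⧸ ((grid fun i => c i * m i).addSubgroupOf (grid c)) := fun t =>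
      QuotientAddGroup.mk ⟨WithLp.toLp 2 fun i => c i * ((t i : ℕ) : ℤ), fun i => ⟨((t i : ℕ) : ℤ), rfl⟩⟩
    refine Finite.of_surjective F ?_
    intro q
    obtain ⟨⟨x, hx⟩, rfl⟩ := QuotientAddGroup.mk_surjective q
    have hx' := hx
    choose k hk using hx'
    have hpos : ∀ i, (0 : ℤ) < m i := fun i => by exact_mod_cast hm i
    refine ⟨fun i => ⟨(k i % m i).toNat, ?_⟩, ?_⟩
    · have h1 := Int.emod_nonneg (k i) (hpos i).ne'
      have h2 := Int.emod_lt_of_pos (k i) (hpos i)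
      omega
    · rw [QuotientAddGroup.eq, AddSubgroup.mem_addSubgroupOf]
      intro i
      refine ⟨k i / m i, ?_⟩
      have h1 := Int.emod_nonneg (k i) (hpos i).ne'
      have h2 : (((k i % m i).toNat : ℕ) : ℤ) = k i % m i := Int.toNat_of_nonneg h1
      have h3 : (k i : ℝ) = (m i : ℝ) * ((k i / m i : ℤ) : ℝ) + ((k i % m i : ℤ) : ℝ) := by
        have := Int.mul_ediv_add_emod (k i) (m i)
        exact_mod_cast this.symm
      change (-(c i * (((((k i % m i).toNat : ℕ) : ℤ)) : ℝ)) + x i) = c i * m i * ((k i / m i : ℤ) : ℝ)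
      rw [h2, hk i]
      linear_combination (c i) * h3
  rw [AddSubgroup.relIndex]
  exact AddSubgroup.index_ne_zero_of_finite

theorem le_norm (x : E n) (i : Fin n) : |x i| ≤ ‖x‖ := by
  have h1 : x i ^ 2 ≤ ‖x‖ ^ 2 := by
    rw [norm_sum]
    exact Finset.single_le_sum (f := fun i => x i ^ 2) (fun j _ => sq_nonneg _) (Finset.mem_univ i)
  exact abs_le_of_sq_le_sq h1 (norm_nonneg _)

end grid

section example_

variable {k : ℕ}

/-- the periods: `2` in the first coordinate and `2 A` in the others -/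
noncomputable def per (k : ℕ) (A : ℝ) : Fin (k + 1) → ℝ := Fin.cons 2 fun _ => 2 * A

/-- the multiples: `M` in the first coordinate and `J` in the others -/
def mul (k M J : ℕ) : Fin (k + 1) → ℕ := Fin.cons M fun _ => J

theorem per_pos {A : ℝ} (hA : 0 < A) (i : Fin (k + 1)) : 0 < per k A i := by
  refine Fin.cases ?_ (fun j => ?_) i
  · simp [per]
  · simp [per, hA]

theorem sum_per (α β : ℝ) (f : Fin (k + 1) → ℝ) (h0 : f 0 = α) (h1 : ∀ j : Fin k, f j.succ = β) :
    ∑ i, f i = α + k * β := by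
  rw [Fin.sum_univ_succ, h0]
  simp [h1]

theorem ex_avoids {A : ℝ} (hA : 0 < A) {M J : ℕ} (hM : 3 ≤ M) (hA2 : (k : ℝ) * A ^ 2 = 3 * M * (M - 2))
    (hJ : 4 * (M : ℝ) - 2 ≤ 2 * A * (J - 1)) :
    Avoids (grid (per k A)) (grid fun i => per k A i * mul k M J i) (4 * M - 2) := by
  have hM' : (3 : ℝ) ≤ M := by exact_mod_cast hM
  intro v hv w hw hvw x y hx hy hxy
  have hx' := (int_grid (per_pos hA)).1 hx
  have hy' := (int_grid (per_pos hA)).1 hy
  have hd : ∀ i, |(x - y) i - (v - w) i| < per k A i := by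
    intro i
    have h1 := hx' i
    have h2 := hy' i
    have h3 : (x - y) i - (v - w) i = (x - v) i - (y - w) i := by
      simp only [PiLp.sub_apply]
      ring
    rw [h3]
    have h4 := abs_sub ((x - v) i) ((y - w) i)
    linarith
  have hbig : ∀ i, ∀ t : ℝ, t ≤ |(v - w) i| → t - per k A i < ‖x - y‖ := by
    intro i t ht
    have h1 := le_norm (x - y) i
    have h2 := hd i
    have h3 : |(v - w) i| ≤ |(x - y) i| + |(x - y) i - (v - w) i| := by
      have : (v - w) i = (x - y) i - ((x - y) i - (v - w) i) := by ring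
      calc |(v - w) i| = |(x - y) i - ((x - y) i - (v - w) i)| := by rw [← this]
        _ ≤ _ := abs_sub _ _
    linarith
  by_cases hcol : ∃ j : Fin k, (v - w) j.succ ≠ 0
  · obtain ⟨j, hj⟩ := hcol
    obtain ⟨m, hm⟩ := hvw j.succ
    have hJ0 : (0 : ℝ) < J := by
      by_contra hcon
      have h1 : 2 * A * ((J : ℝ) - 1) ≤ 0 := by
        have : (J : ℝ) - 1 ≤ 0 := by linarith
        nlinarith
      linarith
    have hm0 : m ≠ 0 := by
      rintro rfl
      apply hj
      rw [hm]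
      simp
    have hm1 : (1 : ℝ) ≤ |(m : ℝ)| := by
      have := Int.one_le_abs hm0
      exact_mod_cast this
    have h1 : 2 * A * J ≤ |(v - w) j.succ| := by
      rw [hm, abs_mul]
      simp only [per, mul, Fin.cons_succ]
      rw [abs_of_pos (by positivity)]
      have : 0 < 2 * A * J := by positivity
      nlinarith
    have h2 := hbig j.succ _ h1
    simp only [per, Fin.cons_succ] at h2
    rw [hxy] at h2
    linarith
  · push Not at hcol
    obtain ⟨m, hm⟩ := hvw 0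
    simp only [per, mul, Fin.cons_zero] at hm
    rcases le_or_gt 2 |m| with h2m | h2m
    · have h2m' : (2 : ℝ) ≤ |(m : ℝ)| := by exact_mod_cast h2m
      have h1 : 4 * (M : ℝ) ≤ |(v - w) 0| := by
        rw [hm, abs_mul, abs_of_pos (by positivity)]
        nlinarith
      have h2 := hbig 0 _ h1
      simp only [per, Fin.cons_zero] at h2
      rw [hxy] at h2
      linarith
    · have hm1 : |(m : ℝ)| ≤ 1 := by
        have : |m| ≤ 1 := by omega
        exact_mod_cast this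
      have h0 : |(x - y) 0| < 2 * M + 2 := by
        have h1 := hd 0
        simp only [per, Fin.cons_zero] at h1
        have h2 : |(v - w) 0| ≤ 2 * M := by
          rw [hm, abs_mul, abs_of_pos (by positivity)]
          nlinarith
        have h3 : |(x - y) 0| ≤ |(x - y) 0 - (v - w) 0| + |(v - w) 0| := by
          have : (x - y) 0 = ((x - y) 0 - (v - w) 0) + (v - w) 0 := by ring
          calc |(x - y) 0| = |((x - y) 0 - (v - w) 0) + (v - w) 0| := by rw [← this]
            _ ≤ _ := abs_add_le _ _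
        linarith
      have h0' : (x - y) 0 ^ 2 < (2 * (M : ℝ) + 2) ^ 2 := by
        rw [← sq_abs]
        exact pow_lt_pow_left₀ h0 (abs_nonneg _) two_ne_zero
      have hs : ∀ j : Fin k, (x - y) j.succ ^ 2 ≤ (2 * A) ^ 2 := by
        intro j
        have h1 := hd j.succ
        simp only [per, Fin.cons_succ] at h1
        rw [hcol j, sub_zero] at h1
        rw [← sq_abs]
        exact pow_le_pow_left₀ (abs_nonneg _) h1.le 2
      have hnorm : ‖x - y‖ ^ 2 < (2 * (M : ℝ) + 2) ^ 2 + k * (2 * A) ^ 2 := by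
        rw [norm_sum, Fin.sum_univ_succ]
        have h1 : ∑ j : Fin k, (x - y) j.succ ^ 2 ≤ ∑ _j : Fin k, (2 * A) ^ 2 :=
          Finset.sum_le_sum fun j _ => hs j
        rw [Finset.sum_const, Finset.card_univ, Fintype.card_fin, nsmul_eq_mul] at h1
        linarith
      rw [hxy] at hnorm
      nlinarith

theorem ex_not_avoids {A : ℝ} (hA : 0 < A) {M J : ℕ} (hk : 1 ≤ k) (hM : 3 ≤ M)
    (hA2 : (k : ℝ) * A ^ 2 = 3 * M * (M - 2)) :
    ¬ Avoids (grid (per k A)) (grid fun i => per k A i * mul k M J i)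
      (2 * Real.sqrt (∑ i, (per k A i / 2) ^ 2)) := by
  have hM' : (3 : ℝ) ≤ M := by exact_mod_cast hM
  have hk' : (1 : ℝ) ≤ k := by exact_mod_cast hk
  have hkpos : (0 : ℝ) < k := by linarith
  intro h
  set s : ℝ := Real.sqrt ((8 * (M : ℝ) ^ 2 - 24 * M + 4) / k) with hs
  have hs2 : (k : ℝ) * s ^ 2 = 8 * (M : ℝ) ^ 2 - 24 * M + 4 := by
    rw [hs, Real.sq_sqrt (div_nonneg (by nlinarith) hkpos.le)]
    field_simp
  have hs0 : 0 ≤ s := Real.sqrt_nonneg _
  have hsA : s < 2 * A := by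
    have h1 : (k : ℝ) * s ^ 2 < k * (2 * A) ^ 2 := by
      rw [hs2]
      nlinarith
    have h2 : s ^ 2 < (2 * A) ^ 2 := lt_of_mul_lt_mul_left h1 hkpos.le
    exact lt_of_pow_lt_pow_left₀ 2 (by positivity) h2
  set v : E (k + 1) := WithLp.toLp 2 (Fin.cons (2 * (M : ℝ)) fun _ => 0) with hv
  set q : E (k + 1) := WithLp.toLp 2 (Fin.cons 0 fun _ => s / 2) with hq
  have hv0 : v 0 = 2 * M := rfl
  have hvs : ∀ j : Fin k, v j.succ = 0 := fun j => rfl
  have hq0 : q 0 = 0 := rfl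
  have hqs : ∀ j : Fin k, q j.succ = s / 2 := fun j => rfl
  have hvΛ : v ∈ grid (per k A) := by
    intro i
    refine Fin.cases ⟨M, ?_⟩ (fun j => ⟨0, ?_⟩) i
    · rw [hv0]
      simp [per]
    · rw [hvs]
      simp
  have hvΛ' : v ∈ grid fun i => per k A i * mul k M J i := by
    intro i
    refine Fin.cases ⟨1, ?_⟩ (fun j => ⟨0, ?_⟩) i
    · rw [hv0]
      simp [per, mul]
    · rw [hvs]
      simp
  have hqi : q ∈ interior (Vor (grid (per k A))) := by
    rw [int_grid (per_pos hA)]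
    intro i
    refine Fin.cases ?_ (fun j => ?_) i
    · rw [hq0]
      simp [per]
    · rw [hqs]
      simp only [per, Fin.cons_succ]
      rw [abs_of_nonneg (by positivity)]
      linarith
  refine h v hvΛ 0 (AddSubgroup.zero_mem _) (by rwa [sub_zero]) (v + q) (-q)
    (by rwa [add_sub_cancel_left]) (by rw [sub_zero]; exact int_neg hqi) ?_
  have h1 : v + q - -q = v + (2 : ℝ) • q := by rw [two_smul]; abel
  rw [h1]
  have h2 : ‖v + (2 : ℝ) • q‖ ^ 2 = (2 * Real.sqrt (∑ i, (per k A i / 2) ^ 2)) ^ 2 := by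
    rw [mul_pow, Real.sq_sqrt (Finset.sum_nonneg fun i _ => sq_nonneg _), norm_sum,
      sum_per ((2 * (M : ℝ)) ^ 2) (s ^ 2) (fun i => (v + (2 : ℝ) • q) i ^ 2) ?_ ?_,
      sum_per 1 (A ^ 2) (fun i => (per k A i / 2) ^ 2) ?_ ?_, hs2, hA2]
    · ring
    · simp [per]
    · intro j
      simp [per]
    · simp only [PiLp.add_apply, PiLp.smul_apply, hv0, hq0]
      simp
    · intro j
      simp only [PiLp.add_apply, PiLp.smul_apply, hvs, hqs, smul_eq_mul]
      ring
  have h3 : 0 ≤ 2 * Real.sqrt (∑ i, (per k A i / 2) ^ 2) := by positivity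
  exact (sq_eq_sq₀ (norm_nonneg _) h3).1 h2

theorem sharp (hk : 1 ≤ k) {c : ℝ} (hc : 4 / Real.sqrt 3 < c) :
    ∃ (Λ Λ' : AddSubgroup (E (k + 1))) (R l : ℝ), IsLat Λ ∧ Λ' ≤ Λ ∧ IsCov Λ R ∧ 2 * R < l ∧
      l ≤ c * R ∧ chi Λ Λ' l ≠ ⊤ ∧ chi Λ Λ' (2 * R) = ⊤ := by
  classical
  have hk' : (1 : ℝ) ≤ k := by exact_mod_cast hk
  have hkpos : (0 : ℝ) < k := by linarith
  have hs3 : (0 : ℝ) < Real.sqrt 3 := Real.sqrt_pos.2 (by norm_num)
  have hs3' : Real.sqrt 3 ^ 2 = 3 := Real.sq_sqrt (by norm_num)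
  have hcpos : 0 < c := lt_trans (by positivity) hc
  have hc2 : 0 < 3 * c ^ 2 - 16 := by
    have h1 : (4 : ℝ) < c * Real.sqrt 3 := by
      rwa [div_lt_iff₀ hs3] at hc
    have h2 := pow_lt_pow_left₀ h1 (by norm_num) two_ne_zero
    rw [mul_pow, hs3'] at h2
    linarith
  obtain ⟨M₀, hM₀⟩ := exists_nat_gt ((6 * c ^ 2 - 16) / (3 * c ^ 2 - 16))
  set M : ℕ := M₀ + 3 with hMdef
  have hM : 3 ≤ M := by omega
  have hM' : (3 : ℝ) ≤ M := by exact_mod_cast hM
  have hMbig : 6 * c ^ 2 - 16 ≤ (3 * c ^ 2 - 16) * M := by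
    rw [div_lt_iff₀ hc2] at hM₀
    have : (M : ℝ) = M₀ + 3 := by rw [hMdef]; push_cast; rfl
    nlinarith
  set A : ℝ := Real.sqrt (3 * M * (M - 2) / k) with hAdef
  have hA2 : (k : ℝ) * A ^ 2 = 3 * M * (M - 2) := by
    rw [hAdef, Real.sq_sqrt (div_nonneg (by nlinarith) hkpos.le)]
    field_simp
  have hA : 0 < A := Real.sqrt_pos.2 (div_pos (by nlinarith) hkpos)
  obtain ⟨J, hJ⟩ := exists_nat_gt ((4 * (M : ℝ) - 2) / (2 * A) + 1)
  have hJ' : 4 * (M : ℝ) - 2 ≤ 2 * A * (J - 1) := by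
    have h1 : (4 * (M : ℝ) - 2) / (2 * A) < J - 1 := by linarith
    rw [div_lt_iff₀ (by positivity)] at h1
    linarith
  have hJpos : 0 < J := by
    have h1 : (0 : ℝ) < J := by
      have : 0 ≤ (4 * (M : ℝ) - 2) / (2 * A) := div_nonneg (by linarith) (by positivity)
      linarith
    exact_mod_cast h1
  have hR2 : ∑ i, (per k A i / 2) ^ 2 = 1 + 3 * (M : ℝ) * ((M : ℝ) - 2) := by
    rw [sum_per 1 (A ^ 2) (fun i => (per k A i / 2) ^ 2) ?_ ?_, hA2]
    · simp [per]
    · intro j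
      simp [per]
  have hmpos : ∀ i, 0 < mul k M J i := by
    intro i
    refine Fin.cases ?_ (fun j => ?_) i
    · simp only [mul, Fin.cons_zero]
      omega
    · simpa [mul] using hJpos
  refine ⟨grid (per k A), grid fun i => per k A i * mul k M J i,
    Real.sqrt (∑ i, (per k A i / 2) ^ 2), 4 * M - 2, grid_isLat (per_pos hA), ?_, cov_grid (per_pos hA),
    ?_, ?_, ?_, ?_⟩
  · intro x hx i
    obtain ⟨m, hm⟩ := hx i
    refine ⟨mul k M J i * m, ?_⟩
    rw [hm]
    push_cast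
    ring
  · rw [hR2]
    have h1 : Real.sqrt (1 + 3 * (M : ℝ) * ((M : ℝ) - 2)) < (4 * (M : ℝ) - 2) / 2 := by
      rw [Real.sqrt_lt' (by linarith)]
      nlinarith
    linarith
  · rw [hR2]
    have h1 : (4 * (M : ℝ) - 2) / c ≤ Real.sqrt (1 + 3 * (M : ℝ) * ((M : ℝ) - 2)) := by
      refine Real.le_sqrt_of_sq_le ?_
      rw [div_pow, div_le_iff₀ (by positivity)]
      have hc4 : 4 ≤ c ^ 2 := by nlinarith
      nlinarith
    rw [div_le_iff₀ hcpos] at h1
    linarith
  · unfold chi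
    rw [if_pos ⟨ex_avoids hA hM hA2 hJ', grid_index _ hmpos⟩]
    exact ENat.natCast_ne_top _
  · unfold chi
    rw [if_neg]
    rintro ⟨h1, -⟩
    exact ex_not_avoids hA hk hM hA2 h1

end example_

/-- For every `n ≥ 2` the number `4 / √3` is the largest `c` such that, for all lattices, all sublattices
and all `l` with `2 R < l ≤ c R`, the sublattice colouring needs for the excluded distance `2 R` at most as
many colours as for `l`. -/
theorem result (n : ℕ) (hn : 2 ≤ n) :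
    IsGreatest {c : ℝ | ∀ (Λ Λ' : AddSubgroup (E n)) (R l : ℝ), IsLat Λ → Λ' ≤ Λ → IsCov Λ R →
      2 * R < l → l ≤ c * R → chi Λ Λ' (2 * R) ≤ chi Λ Λ' l} (4 / Real.sqrt 3) := by
  constructor
  · intro Λ Λ' R l hL hsub hR h2R hl
    exact chi_le hL hsub hR h2R hl
  · intro c hc
    by_contra hcon
    push Not at hcon
    obtain ⟨k, rfl⟩ : ∃ k, n = k + 1 := ⟨n - 1, by omega⟩
    obtain ⟨Λ, Λ', R, l, h1, h2, h3, h4, h5, h6, h7⟩ := sharp (k := k) (by omega) hcon
    have h8 := hc Λ Λ' R l h1 h2 h3 h4 h5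
    rw [h7, top_le_iff] at h8
    exact h6 h8

end Pool.Agent.Results.MP_5651d8_co.Threshold
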